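import Pool.Agent.J6H87.AKN.Lower

/-!
# MP_e6e291_co, Q2: the average kissing number of dimension eight is 240

For packings of balls with arbitrary radii in eight-dimensional Euclidean space the supremum
`κ(8)` of the average kissing numbers equals the kissing number `τ(8) = 240`; so it is not true
that `κ(d) > τ(d)` for each of `d = 4, 8, 24`.

The proof: let the ball `i` touch the balls `j`, put `y_j = r_j / (r_i + r_j)` and let `u_j` be the
unit vector from the centre of `i` to the centre of `j`. Then `u_j . u_l ≤ 1 - 2 y_j y_l` for
`j ≠ l`. A linear programming argument with two variables (a kernel `G (t, x, x')` which is a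
positive definite combination of the zonal polynomials of degree at most 7 with coefficients of
degree at most 2 in `x` and in `x'`, and which is nonpositive whenever
`t ≤ 1 / 2 - (x + x') / 16 - x x' / 128` and `|x|, |x'| ≤ 1`) gives the local inequality
`∑_j w (y_j) ≤ 240` with `w (y) = max 0 (min 2 (16 y - 7))`. Since `w (y) + w (1 - y) = 2`, the sum
over all balls gives `2 E ≤ 240 N`. Large pieces of the lattice `E_8` show that 240 is reached in
the limit.
-/

set_option autoImplicit false

open Pool.Agent.J6H87.AKN

namespace Pool.Agent.Results.MP_e6e291_co.KappaEight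

theorem result :
    kappa 8 = 240 ∧ IsGreatest (kissSet 8) 240 ∧
      ¬ (∀ d : ℕ, d = 4 ∨ d = 8 ∨ d = 24 → ((tau d : ℕ) : EReal) < kappa d) := by
  refine ⟨kappa_eight, isGreatest_kiss, fun h => ?_⟩
  have h8 := h 8 (Or.inr (Or.inl rfl))
  rw [kappa_eight, tau_eight] at h8
  exact lt_irrefl _ h8

end Pool.Agent.Results.MP_e6e291_co.KappaEight
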